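import Pool.Agent.TH624.CJ

set_option autoImplicit false

namespace Pool.Agent.Results.MP_85af13_lc.MeanPayoffGames

open Pool.Agent.TH624.CG Pool.Agent.TH624.CF Pool.Agent.TH624.MPG

/-- **Mean payoff games reduce to chip-firing halting on Eulerian multidigraphs.**  Let `G` be a mean payoff
game on `n` positions with integer payoffs of absolute value at most `C`, with two moves `l v`, `r v` at every
position `v` and a positive integer circulation `ml`, `mr` on its moves, in which every position can be reached
from every position (`FlowGame`).  The multidigraph `mult …` on `3n` vertices, whose multiplicities are explicit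
polynomials in `n`, `C`, `ml`, `mr`, is Eulerian, and the chip-firing game on it started from the
configuration `config …` terminates if and only if the minimizer secures a negative mean payoff from every
position; it does not terminate if and only if there is a position from which the maximizer secures mean payoff
at least `0`. -/
theorem result {P : Type} [Fintype P] [DecidableEq P] (G : Game P) (l r : P → P) (ml mr : P → ℕ)
    (hG : FlowGame G l r ml mr) (C : ℕ) (hC : ∀ p q, G.move p q → |G.c p q| ≤ C) :
    Fintype.card (P × Kd) = 3 * Fintype.card P ∧
    Eulerian (mult l r ml mr (bigN G ml mr C) (bigZ ml mr C)) ∧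
    (Terminates (mult l r ml mr (bigN G ml mr C) (bigZ ml mr C))
      (config G l r ml mr (bigN G ml mr C) (bigZ ml mr C)) ↔ ∀ v, G.MinWins v) ∧
    (¬ Terminates (mult l r ml mr (bigN G ml mr C) (bigZ ml mr C))
      (config G l r ml mr (bigN G ml mr C) (bigZ ml mr C)) ↔ ∃ v, G.MaxWins v) := by
  obtain ⟨h1, h2⟩ := terminates_iff_minWins hG C hC
  refine ⟨card_vertices, h1, h2, ?_⟩
  rw [h2]
  constructor
  · intro h
    rw [not_forall] at h
    obtain ⟨v, hv⟩ := h
    exact ⟨v, (determined hG C hC v).resolve_right hv⟩
  · rintro ⟨v, hv⟩ h
    exact not_both v hv (h v)

end Pool.Agent.Results.MP_85af13_lc.MeanPayoffGames
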